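import Mathlib

namespace Pool.Agent.H.MP_9e2f2c_ag

open MvPolynomial

abbrev S := MvPolynomial (Fin 5) ℂ

noncomputable def lin (a : Fin 5 → ℂ) : S := ∑ i, C (a i) * X i

lemma lin_hom (a : Fin 5 → ℂ) : (lin a).IsHomogeneous 1 :=
  IsHomogeneous.sum _ _ _ fun i _ => isHomogeneous_C_mul_X _ _

noncomputable def D (v : Fin 5 → ℂ) : Derivation ℂ S S := ∑ i, v i • pderiv i

lemma D_apply (v : Fin 5 → ℂ) (f : S) : D v f = ∑ i, v i • pderiv i f := by
  simp [D, Fin.sum_univ_five]

lemma D_lin (v a : Fin 5 → ℂ) : D v (lin a) = C (∑ i, a i * v i) := by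
  simp [D_apply, lin, Fin.sum_univ_five, pderiv_X, smul_eq_C_mul]
  ring

lemma D_hom (v : Fin 5 → ℂ) {f : S} {n : ℕ} (h : f.IsHomogeneous n) :
    (D v f).IsHomogeneous (n - 1) := by
  rw [D_apply]
  exact IsHomogeneous.sum _ _ _ fun i _ =>
    (homogeneousSubmodule (Fin 5) ℂ (n - 1)).smul_mem _ h.pderiv

lemma D_zero (v : Fin 5 → ℂ) {f : S} (h : f.IsHomogeneous 0) : D v f = 0 := by
  rw [← totalDegree_zero_iff_isHomogeneous, totalDegree_eq_zero_iff_eq_C] at h
  rw [h]
  exact (D v).map_algebraMap _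

noncomputable def E (v : Fin 5 → ℂ) (n : ℕ) : S →ₗ[ℂ] S := (D v).toLinearMap ^ n

lemma E_zero (v : Fin 5 → ℂ) (f : S) : E v 0 f = f := rfl

lemma E_succ (v : Fin 5 → ℂ) (n : ℕ) (f : S) : E v (n + 1) f = E v n (D v f) := by
  rw [E, pow_succ]; rfl

lemma E_hom (v : Fin 5 → ℂ) (n m : ℕ) : ∀ f : S, f.IsHomogeneous (m + n) →
    (E v n f).IsHomogeneous m := by
  induction n with
  | zero => exact fun f h => h
  | succ n ih => exact fun f h => by rw [E_succ]; exact ih _ (D_hom v h)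

lemma E_kill (v : Fin 5 → ℂ) (n : ℕ) : ∀ m < n, ∀ f : S, f.IsHomogeneous m → E v n f = 0 := by
  induction n with
  | zero => intro m h; omega
  | succ n ih =>
    intro m hm f h
    rw [E_succ]
    rcases m with _ | m
    · rw [D_zero v h, map_zero]
    · exact ih m (by omega) _ (D_hom v h)

lemma E_mul {v : Fin 5 → ℂ} {g : S} (h : D v g = 0) (n : ℕ) :
    ∀ f : S, E v n (f * g) = E v n f * g := by
  induction n with
  | zero => exact fun f => rfl
  | succ n ih =>
    intro f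
    rw [E_succ, E_succ, Derivation.leibniz, h, smul_zero, zero_add, smul_eq_mul, mul_comm, ih]

lemma D_pow {v a : Fin 5 → ℂ} (h : ∑ i, a i * v i = 0) (s : ℕ) : D v (lin a ^ s) = 0 := by
  rw [Derivation.leibniz_pow, D_lin, h]; simp

def Q (a : Fin 5 → ℂ) (s d : ℕ) (h : S) : Prop := ∃ b : S, b.IsHomogeneous d ∧ h = b * lin a ^ s

lemma D_form (v a : Fin 5 → ℂ) (b : S) (s : ℕ) : D v (b * lin a ^ (s + 1)) =
    (C ((s + 1) * ∑ i, a i * v i) * b + lin a * D v b) * lin a ^ s := by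
  rw [Derivation.leibniz, Derivation.leibniz_pow, D_lin]
  simp only [smul_eq_mul, nsmul_eq_mul, map_mul, map_add, map_natCast, map_one, Nat.add_sub_cancel]
  push_cast
  ring

lemma Q.D {a : Fin 5 → ℂ} {s d : ℕ} {h : S} (q : Q a (s + 1) d h) (v : Fin 5 → ℂ) :
    Q a s d (D v h) := by
  obtain ⟨b, hb, rfl⟩ := q
  refine ⟨_, (hb.C_mul _).add ?_, D_form v a b s⟩
  rcases d with _ | d
  · rw [D_zero v hb, mul_zero]; exact isHomogeneous_zero _ _ _
  · have := (lin_hom a).mul (D_hom v hb)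
    rwa [Nat.add_sub_cancel, add_comm] at this

lemma Q.E {a : Fin 5 → ℂ} {s d : ℕ} (v : Fin 5 → ℂ) (n : ℕ) :
    ∀ h, Q a (s + n) d h → Q a s d (E v n h) := by
  induction n with
  | zero => exact fun h q => q
  | succ n ih => exact fun h q => by rw [E_succ]; exact ih _ (Q.D q v)

lemma Q.kill {a v : Fin 5 → ℂ} {s d n : ℕ} {h : S} (q : Q a s d h) (hv : ∑ i, a i * v i = 0)
    (hn : d < n) : Pool.Agent.H.MP_9e2f2c_ag.E v n h = 0 := by
  obtain ⟨b, hb, rfl⟩ := q
  rw [E_mul (D_pow hv s), E_kill v n d hn b hb, zero_mul]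

lemma D_inj {a v : Fin 5 → ℂ} (hv : ∑ i, a i * v i ≠ 0) {h : S} (hd : lin a ∣ h)
    (e : D v h = 0) : h = 0 := by
  have l0 : lin a ≠ 0 := fun k => hv (by
    have := D_lin v a
    rw [k, map_zero] at this
    exact C_eq_zero.1 this.symm)
  have k : ∀ n : ℕ, lin a ^ (n + 1) ∣ h := by
    intro n
    induction n with
    | zero => simpa using hd
    | succ n ih =>
      obtain ⟨b, rfl⟩ := ih
      rw [mul_comm, D_form] at e
      have e' := (mul_eq_zero.1 e).resolve_right (pow_ne_zero _ l0)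
      have u : IsUnit (C ((n + 1) * ∑ i, a i * v i) : S) :=
        (Ne.isUnit (mul_ne_zero (Nat.cast_add_one_ne_zero n) hv)).map C
      rw [pow_succ _ (n + 1)]
      refine mul_dvd_mul_left _ (u.dvd_mul_left.1 ⟨-D v b, ?_⟩)
      linear_combination e'
  by_contra h0
  obtain ⟨b, hb⟩ := k h.totalDegree
  have b0 : b ≠ 0 := by rintro rfl; simp [h0] at hb
  have := totalDegree_mul_of_isDomain (pow_ne_zero (h.totalDegree + 1) l0) b0
  rw [← hb, ((lin_hom a).pow _).totalDegree (pow_ne_zero _ l0)] at this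
  omega

lemma Q.inj {a v : Fin 5 → ℂ} (hv : ∑ i, a i * v i ≠ 0) {s d : ℕ} (n : ℕ) :
    ∀ h, Q a (s + n) d h → Pool.Agent.H.MP_9e2f2c_ag.E v n h = 0 → h = 0 := by
  induction n with
  | zero => exact fun h _ e => e
  | succ n ih =>
    intro h q e
    rw [E_succ] at e
    refine D_inj hv ?_ (ih _ (Q.D q v) e)
    obtain ⟨b, _, rfl⟩ := q
    exact Dvd.dvd.mul_left (dvd_pow_self _ (by omega)) _

lemma comp_mul (g : S) {h : S} {n : ℕ} (hh : h.IsHomogeneous n) (m : ℕ) :
    homogeneousComponent (m + n) (g * h) = homogeneousComponent m g * h := by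
  have k : ∀ i, homogeneousComponent (m + n) (homogeneousComponent i g * h) =
      homogeneousComponent m (homogeneousComponent i g) * h := by
    intro i
    rw [homogeneousComponent_of_mem ((homogeneousComponent_isHomogeneous i g).mul hh),
      homogeneousComponent_of_mem (homogeneousComponent_mem i g)]
    by_cases e : m = i <;> simp [e]
  conv_lhs => rw [← sum_homogeneousComponent g]
  conv_rhs => rw [← sum_homogeneousComponent g]
  simp only [Finset.sum_mul, map_sum, k]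

abbrev H (j : ℕ) : Submodule ℂ S := homogeneousSubmodule (Fin 5) ℂ j

instance (j : ℕ) : Module.Finite ℂ (H j) := Module.Finite.iff_fg.2 (homogeneousSubmodule_fg _ _ j)

lemma finrank_H (j : ℕ) : Module.finrank ℂ (H j) = (j + 4).choose 4 := by
  classical
  have e : {d : Fin 5 →₀ ℕ | d.degree = j} =
      ((Finset.finsuppAntidiag Finset.univ j : Finset (Fin 5 →₀ ℕ)) : Set (Fin 5 →₀ ℕ)) := by
    ext d
    simp [Finsupp.degree_eq_sum]
  have : H j = restrictSupport ℂ 
      ((Finset.finsuppAntidiag Finset.univ j : Finset (Fin 5 →₀ ℕ)) : Set (Fin 5 →₀ ℕ)) := by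
    rw [← e]; exact homogeneousSubmodule_eq_finsupp_supported _ _ j
  rw [this, Module.finrank_eq_card_basis (basisRestrictSupport ℂ _)]
  simp only [Finset.coe_sort_coe, Fintype.card_coe, Finset.card_finsuppAntidiag_nat_eq_choose,
    Finset.card_univ, Fintype.card_fin]
  rw [show 5 + j - 1 = j + 4 by omega, Nat.choose_symm_add]

end Pool.Agent.H.MP_9e2f2c_ag
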