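import Mathlib

namespace Pool.Agent.H.MP_9e2f2c_ag

open Polynomial

lemma syzR {R : Type*} [CommRing R] [Algebra ℂ R] (x0 y x2 x3 x4 : R) (t : Fin 5 → ℂ)
    (ht : Function.Injective t) (t0 : ∀ i, t i ≠ 0)
    (h : ∀ i, (x0 + algebraMap ℂ R (t i) * (y + algebraMap ℂ R (t i) * (x2 +
      algebraMap ℂ R (t i) * (x3 + algebraMap ℂ R (t i) * x4)))) ^ 17 = 0) (h4 : x4 ^ 17 = 0) :
    ∃ c : ℂ, c ≠ 0 ∧ ∃ w : R, x0 ^ 17 * (algebraMap ℂ R c * y ^ 21 + x0 * w) = 0 := by
  rcases subsingleton_or_nontrivial R with _ | _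
  · exact ⟨1, one_ne_zero, 0, Subsingleton.elim _ _⟩
  set η : R[X] := C y + X * (C x2 + X * (C x3 + X * C x4)) with hη
  set γ : R[X] := C x0 + X * η with hγ
  have d1 : ∀ i, (X - C (algebraMap ℂ R (t i))) ^ 22 ∣ γ ^ 38 := by
    intro i
    have e : (C (γ.eval (algebraMap ℂ R (t i)))) ^ 17 = 0 := by
      rw [← map_pow, ← C_0, ← h i]
      simp only [hγ, hη, eval_add, eval_mul, eval_C, eval_X]
    have := (Commute.all (γ - C (γ.eval (algebraMap ℂ R (t i)))) _).pow_dvd_add_pow_of_pow_eq_zero_right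
      (m := 22) (p := 38) (by norm_num) e
    rw [sub_add_cancel] at this
    exact (pow_dvd_pow_of_dvd X_sub_C_dvd_sub_C_eval 22).trans this
  have d2 : (γ ^ 38).natDegree ≤ 130 := by
    have e : γ = C x4 * X ^ 4 + (C x0 + C y * X + C x2 * X ^ 2 + C x3 * X ^ 3) := by
      rw [hγ, hη]; ring
    have n3 : (C x0 + C y * X + C x2 * X ^ 2 + C x3 * X ^ 3 : R[X]).natDegree ≤ 3 := by
      compute_degree
    have n4 : (C x4 * X ^ 4 : R[X]).natDegree ≤ 4 := natDegree_C_mul_X_pow_le _ _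
    rw [e, add_pow]
    refine natDegree_sum_le_of_forall_le _ _ fun m hm => ?_
    by_cases k : 17 ≤ m
    · rw [mul_pow, ← map_pow, pow_eq_zero_of_le k h4]; simp
    · refine natDegree_mul_le.trans ?_
      rw [natDegree_natCast, add_zero]
      refine natDegree_mul_le.trans ?_
      have a := natDegree_pow_le_of_le m n4
      have b := natDegree_pow_le_of_le (38 - m) n3
      omega
  obtain ⟨q, hq⟩ : ∏ i, (X - C (algebraMap ℂ R (t i))) ^ 22 ∣ γ ^ 38 := by
    refine Finset.prod_dvd_of_coprime (fun i _ j _ e => ?_) fun i _ => d1 i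
    refine (isCoprime_X_sub_C_of_isUnit_sub ?_).pow
    rw [← map_sub]
    exact (Ne.isUnit (sub_ne_zero.2 fun k => e (ht k))).map _
  have d3 : q.coeff 21 = 0 := by
    by_cases q0 : q = 0
    · simp [q0]
    refine coeff_eq_zero_of_natDegree_lt ?_
    have mo : ∀ i, ((X - C (algebraMap ℂ R (t i))) ^ 22).Monic := fun i => (monic_X_sub_C _).pow _
    rw [hq, (monic_prod_of_monic _ _ fun i _ => mo i).natDegree_mul' q0,
      natDegree_prod_of_monic _ _ fun i _ => mo i] at d2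
    simp only [(monic_X_sub_C _).natDegree_pow, natDegree_X_sub_C, Finset.sum_const,
      Finset.card_univ, Fintype.card_fin, smul_eq_mul] at d2
    omega
  obtain ⟨A, B, hAB⟩ : IsCoprime (X ^ 22 : ℂ[X]) (∏ i, (X - C (t i)) ^ 22) := by
    refine IsCoprime.prod_right fun i _ => IsCoprime.pow ?_
    have := isCoprime_X_sub_C_of_isUnit_sub (a := (0 : ℂ)) (b := t i) (Ne.isUnit (by simp [t0 i]))
    simpa using this
  have B0 : B.coeff 0 ≠ 0 := by
    intro k
    have := congrArg (fun p => p.coeff 0) hAB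
    simp [k] at this
  have e := congrArg (Polynomial.map (algebraMap ℂ R)) hAB
  simp only [Polynomial.map_add, Polynomial.map_mul, Polynomial.map_pow, Polynomial.map_prod,
    Polynomial.map_sub, map_X, map_C, Polynomial.map_one] at e
  set B' := B.map (algebraMap ℂ R) with hB'
  have z : (B' * γ ^ 38).coeff 21 = 0 := by
    have : B' * γ ^ 38 = q - X ^ 22 * (A.map (algebraMap ℂ R) * q) := by
      rw [hq]; linear_combination q * e
    rw [this, coeff_sub, d3, coeff_X_pow_mul', if_neg (by norm_num), sub_zero]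
  obtain ⟨N, hN, hs⟩ : ∃ N : ℕ → ℕ, N 21 ≠ 0 ∧ γ ^ 38 = ∑ m ∈ Finset.range (38 + 1),
      (X * η) ^ m * C x0 ^ (38 - m) * (N m : R[X]) :=
    ⟨Nat.choose 38, (Nat.choose_pos (by norm_num)).ne', by rw [hγ, add_comm, add_pow]⟩
  have η0 : η.eval 0 = y := by simp [hη]
  clear_value η γ
  have dv : x0 ^ 18 ∣ (B' * γ ^ 38).coeff 21 -
      x0 ^ 17 * (algebraMap ℂ R (B.coeff 0 * ((N 21 : ℕ) : ℂ)) * y ^ 21) := by
    rw [hs, Finset.mul_sum, finsetSum_coeff,
      ← Finset.add_sum_erase _ _ (show 21 ∈ Finset.range (38 + 1) by simp)]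
    have a : (B' * ((X * η) ^ 21 * C x0 ^ (38 - 21) * ((N 21 : ℕ) : R[X]))).coeff 21 =
        x0 ^ 17 * (algebraMap ℂ R (B.coeff 0 * ((N 21 : ℕ) : ℂ)) * y ^ 21) := by
      have : B' * ((X * η) ^ 21 * C x0 ^ (38 - 21) * ((N 21 : ℕ) : R[X])) =
          X ^ 21 * (B' * η ^ 21 * C x0 ^ 17 * ((N 21 : ℕ) : R[X])) := by
        ring
      rw [this, coeff_X_pow_mul', if_pos le_rfl, Nat.sub_self, coeff_zero_eq_eval_zero]
      simp only [eval_mul, eval_pow, eval_C, eval_natCast, η0, map_mul, map_natCast]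
      rw [← coeff_zero_eq_eval_zero B', hB', coeff_map]
      ring
    rw [a, add_sub_cancel_left]
    refine Finset.dvd_sum fun m hm => ?_
    have hm := (Finset.mem_erase.1 hm).1
    by_cases k : 22 ≤ m
    · have : B' * ((X * η) ^ m * C x0 ^ (38 - m) * ((N m : ℕ) : R[X])) =
          X ^ m * (B' * η ^ m * C x0 ^ (38 - m) * ((N m : ℕ) : R[X])) := by ring
      rw [this, coeff_X_pow_mul', if_neg (by omega)]
      exact dvd_zero _
    · have : B' * ((X * η) ^ m * C x0 ^ (38 - m) * ((N m : ℕ) : R[X])) =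
          C (x0 ^ (38 - m)) * (B' * (X * η) ^ m * ((N m : ℕ) : R[X])) := by
        rw [map_pow]; ring
      rw [this, coeff_C_mul]
      exact Dvd.dvd.mul_right (pow_dvd_pow _ (by omega)) _
  obtain ⟨w, hw⟩ := dv
  refine ⟨B.coeff 0 * ((N 21 : ℕ) : ℂ), mul_ne_zero B0 (Nat.cast_ne_zero.2 hN), w, ?_⟩
  rw [z] at hw
  linear_combination -hw

end Pool.Agent.H.MP_9e2f2c_ag
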