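import Mathlib
import Pool.Agent.H.MP_9e2f2c_ag.A

namespace Pool.Agent.H.MP_9e2f2c_ag

open MvPolynomial

def dot (a v : Fin 5 → ℂ) : ℂ := ∑ i, a i * v i

lemma ind {a : Fin 9 → Fin 5 → ℂ} {j : Fin 9} {v1 v2 : Fin 5 → ℂ} (h1 : dot (a j) v1 ≠ 0)
    (h2 : dot (a j) v2 ≠ 0) (h : ∀ i, i ≠ j → dot (a i) v1 = 0 ∨ dot (a i) v2 = 0)
    (b : Fin 9 → S) (hb : ∀ i, (b i).IsHomogeneous 4) (e : ∑ i, b i * lin (a i) ^ 17 = 0) :
    b j = 0 := by
  have q : ∀ i, Q (a i) (12 + 5) 4 (b i * lin (a i) ^ 17) := fun i => ⟨b i, hb i, rfl⟩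
  have e' := congrArg (fun f => E v1 5 (E v2 5 f)) e
  simp only [map_sum, map_zero] at e'
  rw [Finset.sum_eq_single j (fun i _ hi => ?_) (by simp)] at e'
  · have := Q.inj h2 5 _ (q j) (Q.inj h1 (s := 7) 5 _ (Q.E v2 5 _ (q j)) e')
    refine (mul_eq_zero.1 this).resolve_right (pow_ne_zero _ fun k => h1 ?_)
    have := D_lin v1 (a j)
    rw [k, map_zero] at this
    exact C_eq_zero.1 this.symm
  · rcases h i hi with k | k
    · exact (Q.E v2 5 _ (q i)).kill k (by norm_num)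
    · rw [(q i).kill k (by norm_num), map_zero]

lemma ind0 {a : Fin 9 → Fin 5 → ℂ} {y v1 v2 v3 : Fin 5 → ℂ} (y1 : dot y v1 ≠ 0)
    (y2 : dot y v2 ≠ 0) (y3 : dot y v3 ≠ 0) (z1 : dot (a 0) v1 = 0) (z2 : dot (a 0) v2 = 0)
    (z3 : dot (a 0) v3 = 0) (h : ∀ i, dot (a i) v1 = 0 ∨ dot (a i) v2 = 0 ∨ dot (a i) v3 = 0)
    (b : Fin 9 → S) (hb : ∀ i, (b i).IsHomogeneous 4) (t : ℂ) (w : S) (hw : w.IsHomogeneous 20)
    (e : ∑ i, b i * lin (a i) ^ 17 + (C t * lin y ^ 21 + w * lin (a 0)) = 0) : t = 0 := by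
  have q : ∀ i, Q (a i) (12 + 5) 4 (b i * lin (a i) ^ 17) := fun i => ⟨b i, hb i, rfl⟩
  have e' := congrArg (fun f => E v3 11 (E v2 5 (E v1 5 f))) e
  simp only [map_sum, map_zero, map_add] at e'
  have d : ∀ v, dot (a 0) v = 0 → D v (lin (a 0)) = 0 := fun v hv => by
    rw [D_lin]; exact (congrArg C hv).trans C_0
  rw [Finset.sum_eq_zero fun i _ => ?_, E_mul (d _ z1), E_mul (d _ z2), E_mul (d _ z3),
    E_kill v3 11 10 (by norm_num) _ (E_hom v2 5 10 _ (E_hom v1 5 15 _ hw)), zero_mul, add_zero,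
    zero_add] at e'
  · generalize hf : C t * lin y ^ 21 = f at e'
    have qy : Q y (16 + 5) 0 f := ⟨C t, isHomogeneous_C _ _, hf.symm⟩
    have q1 : Q y (11 + 5) 0 (E v1 5 f) := Q.E (s := 16) v1 5 _ qy
    have q2 : Q y (0 + 11) 0 (E v2 5 (E v1 5 f)) := Q.E (s := 11) v2 5 _ q1
    have this := hf.trans (Q.inj y1 5 _ qy (Q.inj y2 5 _ q1 (Q.inj y3 11 _ q2 e')))
    refine C_eq_zero.1 ((mul_eq_zero.1 this).resolve_right (pow_ne_zero _ fun k => y1 ?_))
    have := D_lin v1 y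
    rw [k, map_zero] at this
    exact C_eq_zero.1 this.symm
  · have q1 : Q (a i) (7 + 5) 4 _ := Q.E v1 5 _ (q i)
    rcases h i with k | k | k
    · rw [(q i).kill k (by norm_num), map_zero, map_zero]
    · rw [q1.kill k (by norm_num), map_zero]
    · exact (Q.E v2 5 _ q1).kill k (by norm_num)

abbrev P := {p : Fin 9 × Fin 9 // p.1 < p.2}

noncomputable def sk (k j : Fin 9) : (P → H 4) →ₗ[ℂ] H 4 :=
  if h : k < j then LinearMap.proj (⟨(k, j), h⟩ : P)
  else if h : j < k then -LinearMap.proj (⟨(j, k), h⟩ : P) else 0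

lemma sk_neg (k j : Fin 9) (x : P → H 4) : (sk j k x : S) = -(sk k j x : S) := by
  unfold sk
  rcases lt_trichotomy k j with h | rfl | h
  · simp [h, h.not_gt]
  · simp
  · simp [h, h.not_gt]

lemma count {a : Fin 9 → Fin 5 → ℂ}
    (h1 : ∀ j, ∀ b : Fin 9 → S, (∀ i, (b i).IsHomogeneous 4) → ∑ i, b i * lin (a i) ^ 17 = 0 →
      b j = 0)
    (g : Fin 9 → S) (hg : ∀ k, (g k).IsHomogeneous 21) (g0 : ∑ k, g k * lin (a k) ^ 17 = 0)
    (h2 : ∀ b : Fin 9 → S, (∀ i, (b i).IsHomogeneous 4) → ∀ t : ℂ,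
      ∑ i, b i * lin (a i) ^ 17 + t • g 0 = 0 → t = 0) :
    Module.finrank ℂ ↥((Submodule.restrictScalars ℂ (Ideal.span (Set.range fun k : Fin 9 =>
      lin (a k) ^ 17))) ⊓ H 38) + 2521 ≤ 113850 := by
  have l : ∀ k, (lin (a k) ^ 17).IsHomogeneous 17 := fun k => (lin_hom _).pow 17
  let φ : (Fin 9 → H 21) →ₗ[ℂ] S :=
    ∑ k, LinearMap.mulRight ℂ (lin (a k) ^ 17) ∘ₗ (H 21).subtype ∘ₗ LinearMap.proj k
  have φe : ∀ f, φ f = ∑ k, (f k : S) * lin (a k) ^ 17 := fun f => by simp [φ]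
  let κ0 : Fin 9 → ((P → H 4) × ℂ) →ₗ[ℂ] S := fun k =>
    ∑ j, LinearMap.mulRight ℂ (lin (a j) ^ 17) ∘ₗ (H 4).subtype ∘ₗ sk k j ∘ₗ LinearMap.fst _ _ _ +
      LinearMap.toSpanSingleton ℂ S (g k) ∘ₗ LinearMap.snd _ _ _
  have κe : ∀ k x, κ0 k x = ∑ j, (sk k j x.1 : S) * lin (a j) ^ 17 + x.2 • g k := fun k x => by
    simp [κ0]
  have κm : ∀ k x, κ0 k x ∈ H 21 := fun k x => by
    rw [κe]
    exact (H 21).add_mem ((H 21).sum_mem fun j _ => IsHomogeneous.mul (sk k j x.1).2 (l j))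
      ((H 21).smul_mem _ (hg k))
  let κ : ((P → H 4) × ℂ) →ₗ[ℂ] (Fin 9 → H 21) :=
    LinearMap.pi fun k => (κ0 k).codRestrict _ (κm k)
  have κk : ∀ x, κ x ∈ LinearMap.ker φ := fun x => by
    rw [LinearMap.mem_ker, φe]
    change ∑ k, κ0 k x * _ = 0
    simp only [κe, add_mul, Finset.sum_add_distrib, smul_mul_assoc, ← Finset.smul_sum, g0,
      smul_zero, add_zero, Finset.sum_mul]
    have : ∑ k, ∑ j, (sk k j x.1 : S) * lin (a j) ^ 17 * lin (a k) ^ 17 =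
        -∑ k, ∑ j, (sk k j x.1 : S) * lin (a j) ^ 17 * lin (a k) ^ 17 := by
      conv_lhs => rw [Finset.sum_comm]
      simp only [← Finset.sum_neg_distrib]
      refine Finset.sum_congr rfl fun k _ => Finset.sum_congr rfl fun j _ => ?_
      rw [sk_neg k j]
      ring
    exact self_eq_neg.1 this
  have inj : Function.Injective (κ.codRestrict _ κk) := by
    rw [injective_iff_map_eq_zero]
    intro x hx
    have z : ∀ k, κ0 k x = 0 := fun k => congrArg (fun f => (f.1 k : S)) hx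
    simp only [κe] at z
    have t := h2 _ (fun j => (sk 0 j x.1).2) _ (z 0)
    simp only [t, zero_smul, add_zero] at z
    refine Prod.ext (funext fun p => Subtype.ext ?_) t
    have := h1 p.1.2 _ (fun j => (sk p.1.1 j x.1).2) (z p.1.1)
    simpa [sk, p.2] using this
  have r1 := LinearMap.finrank_le_finrank_of_injective inj
  have r2 := φ.finrank_range_add_finrank_ker
  have r3 : Module.finrank ℂ ↥((Submodule.restrictScalars ℂ (Ideal.span (Set.range fun k : Fin 9 =>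
      lin (a k) ^ 17))) ⊓ H 38) ≤ Module.finrank ℂ (LinearMap.range φ) := by
    refine Submodule.finrank_mono ?_
    rintro x ⟨hx, hx'⟩
    obtain ⟨c, rfl⟩ := Ideal.mem_span_range_iff_exists_fun.1 hx
    refine ⟨fun k => ⟨_, homogeneousComponent_mem 21 (c k)⟩, ?_⟩
    rw [φe, ← homogeneousComponent_eq_self hx', map_sum]
    exact Finset.sum_congr rfl fun k _ => (comp_mul _ (l k) 21).symm
  have c : Fintype.card P = 36 := by decide +kernel
  rw [Module.finrank_prod, Module.finrank_pi_fintype, Module.finrank_self] at r1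
  rw [Module.finrank_pi_fintype] at r2
  simp only [finrank_H, Finset.sum_const, Finset.card_univ, c, Fintype.card_fin, smul_eq_mul]
    at r1 r2
  have a1 : (4 + 4).choose 4 = 70 := by decide +kernel
  have a2 : (21 + 4).choose 4 = 12650 := by decide +kernel
  omega

end Pool.Agent.H.MP_9e2f2c_ag
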