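import Mathlib
import Pool.Agent.Lib.helper12.Gen
import Pool.Agent.H.MP_9e2f2c_ag.B
import Pool.Agent.H.MP_9e2f2c_ag.C

namespace Pool.Agent.H.MP_9e2f2c_ag

open MvPolynomial Pool.Agent.Lib.helper12.Gen

section
variable {R : Type*} [CommSemiring R]

def el (U W : Fin 4 → R) : ℕ → R
  | 0 => U 0 * U 1 * U 2 * U 3
  | 1 => W 0 * U 1 * U 2 * U 3 + U 0 * W 1 * U 2 * U 3 + U 0 * U 1 * W 2 * U 3 +
      U 0 * U 1 * U 2 * W 3
  | 2 => W 0 * W 1 * U 2 * U 3 + W 0 * U 1 * W 2 * U 3 + W 0 * U 1 * U 2 * W 3 +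
      U 0 * W 1 * W 2 * U 3 + U 0 * W 1 * U 2 * W 3 + U 0 * U 1 * W 2 * W 3
  | 3 => U 0 * W 1 * W 2 * W 3 + W 0 * U 1 * W 2 * W 3 + W 0 * W 1 * U 2 * W 3 +
      W 0 * W 1 * W 2 * U 3
  | _ => W 0 * W 1 * W 2 * W 3

def cs (i : Fin 5) : Fin 9 := Fin.castLE (by norm_num) i

def mv (θ : Fin 9 × Fin 5 → R) (s : ℕ) (l : Fin 5) : R :=
  ∑ i, θ (6, i) * θ (5, i) * el (fun j => θ (5, i.succAbove j)) (fun j => θ (6, i.succAbove j)) s *
    θ (cs i, l)

def vec (θ : Fin 9 × Fin 5 → R) (k : ℕ) (l : Fin 5) : R :=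
  if k = 0 then ∑ i, θ (6, i) * θ (cs i, l) else if k < 6 then θ (Fin.ofNat 9 (k - 1), l)
  else if k = 6 then ∑ i, θ (5, i) * θ (cs i, l) else if k < 9 then θ (Fin.ofNat 9 k, l)
  else mv θ 1 l

lemma vec_map {T : Type*} [CommSemiring T] (f : R →+* T) (θ : Fin 9 × Fin 5 → R) (k : ℕ)
    (l : Fin 5) : f (vec θ k l) = vec (fun i => f (θ i)) k l := by
  unfold vec mv
  split_ifs <;> simp [el]

end

def p0 (i : Fin 9 × Fin 5) : ℕ := dg 0x522321222554321111111000001000001000001000001 4 (5 * i.1 + i.2)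

def sel (q r : ℕ) : ℕ := dg 0x187096540932109321082108710876087658765476543654325432143210 4 (5 * q + r)

def TA : ℕ := 0x1050202030201020202050504030201322c241a0e0101010101010000000000010000000504030201322c241a0e0000010000000000010000000000010504030201322c241a0e000001000000000001000000000001050403020105020203020000000100000000000105040302010502020302010202020500000000010504030201050202030201020202050101010101050403020105020203020102020205010101010101000000000502020302010202020501010101010100000000000100000001020202050101010101010000000000010000000000010000010101010101000000000001000000000001000000000001000100000000000100000000000100000000000100000000000100010000000000010000000000010000000000010504030201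

def TB : ℕ := 0x80b38af4012abcd154005380a4a90053069faa0015dbe7a700000001f8030100f508f80001f803fa000006f00500007d017d657c010000337c00010065fa000001cb7b000000323f000000327d010000c87e000100967e000001327e000000977d000000bc603c0100bd623800010001fa00003f9cbd0000bcdb40000003ee12f2010001fa00000001f90100fa05f4030002ec16f3000001fa00000001f9010000a8fa005400a10af95301a306f8540000fa01000000a700540000abf9530100a9f8540001fa0000000000a754000000a953010000a654000100fa00000001fa00000000000101000000fa00010000fa00000100fa00000001fa01000000000001000000000001000000000001000000000001c801000000960001000064000001003200000001c900000000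

lemma chk : ∀ q : Fin 12, chkA 5 5 (dg TA 200 q) (fun r l => vec p0 (sel q r) (Fin.ofNat 5 l)) = true ∧
    chkB 5 5 (dg TA 200 q) (dg TB 200 q) = true := by decide +kernel

lemma genq (q : Fin 12) : ∃ G : MvPolynomial (Fin 9 × Fin 5) ℂ, G ≠ 0 ∧ ∀ θ, eval θ G ≠ 0 →
    ∀ r : Fin 5, ∃ v, dot (vec θ (sel q r)) v ≠ 0 ∧ ∀ s : Fin 5, s ≠ r → dot (vec θ (sel q s)) v = 0 := by
  obtain ⟨G, h, k⟩ := gen ℂ 5 5 _ _ (fun r l => vec X (sel q r) (Fin.ofNat 5 l)) p0 _
    (fun i k => by rw [vec_map]; simp) (chk q).1 (chk q).2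
  refine ⟨G, h, fun θ hθ r => ?_⟩
  obtain ⟨c, hc⟩ := k θ hθ fun s => if s = r then 1 else 0
  have : ∀ s : Fin 5, dot (vec θ (sel q s)) c = if s = r then 1 else 0 := by
    intro s
    rw [← hc s]
    refine Finset.sum_congr rfl fun l _ => ?_
    rw [← coe_eval₂Hom, vec_map]
    simp
  exact ⟨c, by simp [this], fun s hs => by simp [this, hs]⟩

lemma dom (P : MvPolynomial (Fin 9 × Fin 5) ℂ) (hP : P ≠ 0) :
    ∃ θ : Fin 9 × Fin 5 → ℂ, eval (fun p : Fin 9 × Fin 5 => vec θ p.1 p.2) P ≠ 0 := by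
  let M : Matrix (Fin 5) (Fin 5) (MvPolynomial (Fin 9 × Fin 5) ℂ) := fun i l => X (cs i + 1, l)
  have d : M.det ≠ 0 := by
    intro h
    have := (eval fun p : Fin 9 × Fin 5 => if p.1 = cs p.2 + 1 then (1 : ℂ) else 0).map_det M
    rw [h, map_zero] at this
    have e : (eval fun p : Fin 9 × Fin 5 => if p.1 = cs p.2 + 1 then (1 : ℂ) else 0).mapMatrix M =
        1 := by
      ext i l
      have : ∀ i l : Fin 5, cs i + 1 = cs l + 1 ↔ i = l := by decide
      simp [M, Matrix.one_apply, this]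
    simp [e] at this
  obtain ⟨a, ha⟩ : ∃ a, eval a (P * M.det) ≠ 0 := by
    by_contra h
    push Not at h
    exact mul_ne_zero hP d (MvPolynomial.funext fun x => by rw [h, map_zero])
  rw [map_mul, mul_ne_zero_iff, RingHom.map_det] at ha
  have su := Matrix.vecMul_surjective_iff_isUnit.2 ((Matrix.isUnit_iff_isUnit_det _).2 ha.2.isUnit)
  obtain ⟨u, hu⟩ := su fun l => a (6, l)
  obtain ⟨w, hw⟩ := su fun l => a (0, l)
  refine ⟨fun p => if p.1.val < 5 then a (p.1 + 1, p.2) else if p.1 = 5 then u p.2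
    else if p.1 = 6 then w p.2 else a p, ?_⟩
  have c : ∀ i : Fin 5, (cs i).val < 5 := fun i => i.2
  refine fun h => ha.1 (Eq.trans ?_ h)
  congr 2
  funext ⟨k, l⟩
  have hu' := congrFun hu l
  have hw' := congrFun hw l
  simp only [Matrix.vecMul, dotProduct, RingHom.mapMatrix_apply, Matrix.map_apply, M, eval_X]
    at hu' hw'
  fin_cases k
  · simpa [vec, c] using hw'.symm
  all_goals first | rfl | simpa [vec, c] using hu'.symm

end Pool.Agent.H.MP_9e2f2c_ag
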