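import Mathlib
import Pool.Agent.H.MP_9e2f2c_ag.D

namespace Pool.Agent.H.MP_9e2f2c_ag

open MvPolynomial

lemma lin_comb (a b : Fin 5 → ℂ) (t : ℂ) : lin a + C t * lin b = lin fun l => a l + t * b l := by
  simp only [lin, Fin.sum_univ_five, map_add, map_mul]
  ring

lemma lin_smul (a : Fin 5 → ℂ) (t : ℂ) : (lin fun l => t * a l) = C t * lin a := by
  simp only [lin, Fin.sum_univ_five, map_mul]
  ring

lemma curve (θ : Fin 9 × Fin 5 → ℂ) (k : Fin 5) (hw : θ (6, k) ≠ 0) (t : ℂ)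
    (ht : t = -θ (5, k) / θ (6, k)) : ∃ c : ℂ, ∀ l, mv θ 0 l + t * (mv θ 1 l + t * (mv θ 2 l +
      t * (mv θ 3 l + t * mv θ 4 l))) = c * θ (cs k, l) := by
  refine ⟨θ (6, k) * θ (5, k) * ∏ j, (θ (5, k.succAbove j) + t * θ (6, k.succAbove j)),
    fun l => ?_⟩
  rw [← Finset.sum_eq_single (s := Finset.univ) (f := fun i : Fin 5 => θ (6, i) * θ (5, i) *
    (∏ j, (θ (5, i.succAbove j) + t * θ (6, i.succAbove j))) * θ (cs i, l)) k (fun i _ hi => ?_)
    (by simp)]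
  · simp only [mv, Finset.mul_sum, ← Finset.sum_add_distrib]
    refine Finset.sum_congr rfl fun i _ => ?_
    simp only [el, Fin.prod_univ_four]
    ring
  · obtain ⟨j, hj⟩ := Fin.exists_succAbove_eq hi.symm
    rw [Finset.prod_eq_zero (Finset.mem_univ j), mul_zero, zero_mul]
    rw [hj, ht]
    field_simp
    ring

lemma mv0 (θ : Fin 9 × Fin 5 → ℂ) : mv θ 0 = fun l => (∏ i, θ (5, i)) * vec θ 0 l := by
  funext l
  simp only [mv, vec, if_true, Finset.mul_sum]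
  refine Finset.sum_congr rfl fun i _ => ?_
  rw [Fin.prod_univ_succAbove _ i]
  simp only [el, Fin.prod_univ_four]
  ring

lemma mv4 (θ : Fin 9 × Fin 5 → ℂ) : mv θ 4 = fun l => (∏ i, θ (6, i)) * vec θ 6 l := by
  funext l
  have : vec θ 6 l = ∑ i, θ (5, i) * θ (cs i, l) := by simp [vec]
  simp only [mv, this, Finset.mul_sum]
  refine Finset.sum_congr rfl fun i _ => ?_
  rw [Fin.prod_univ_succAbove _ i]
  simp only [el, Fin.prod_univ_four]
  ring

lemma extra (θ : Fin 9 × Fin 5 → ℂ) (hu : ∀ i, θ (5, i) ≠ 0) (hw : ∀ i, θ (6, i) ≠ 0)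
    (hd : ∀ i j, θ (5, i) * θ (6, j) = θ (5, j) * θ (6, i) → i = j) :
    ∃ g : Fin 9 → S, (∀ k, (g k).IsHomogeneous 21) ∧ ∑ k, g k * lin (vec θ k) ^ 17 = 0 ∧
      ∃ c : ℂ, c ≠ 0 ∧ ∃ w : S, w.IsHomogeneous 20 ∧
        g 0 = C c * lin (vec θ 9) ^ 21 + w * lin (vec θ 0) := by
  let J : Ideal S := Ideal.span (Set.range fun k : Fin 9 =>
    if k = 0 then 0 else lin (vec θ k) ^ 17)
  have mJ : ∀ k : Fin 9, k ≠ 0 → ∀ c : ℂ, (Ideal.Quotient.mk J (C c * lin (vec θ k))) ^ 17 = 0 := by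
    intro k hk c
    rw [← map_pow, Ideal.Quotient.eq_zero_iff_mem, mul_pow]
    exact J.mul_mem_left _ (Ideal.subset_span ⟨k, by simp [hk]⟩)
  have al : ∀ t : ℂ, algebraMap ℂ (S ⧸ J) t = Ideal.Quotient.mk J (C t) := fun t => rfl
  obtain ⟨c, hc, w, e⟩ := syzR (Ideal.Quotient.mk J (lin (mv θ 0))) (Ideal.Quotient.mk J (lin (mv θ 1)))
    (Ideal.Quotient.mk J (lin (mv θ 2))) (Ideal.Quotient.mk J (lin (mv θ 3)))
    (Ideal.Quotient.mk J (lin (mv θ 4))) (fun k => -θ (5, k) / θ (6, k))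
    (fun i j h => hd i j (by
      have := hw i
      have := hw j
      simp only at h
      field_simp at h
      linear_combination -h))
    (fun i => div_ne_zero (neg_ne_zero.2 (hu i)) (hw i))
    (fun k => by
      obtain ⟨c, hc⟩ := curve θ k (hw k) _ rfl
      simp only [al, ← map_mul, ← map_add, lin_comb, hc, lin_smul]
      have : (fun l => θ (cs k, l)) = vec θ (cs k + 1 : Fin 9) := by
        fin_cases k <;> rfl
      have := this ▸ mJ (cs k + 1) ((by decide : ∀ k : Fin 5, cs k + 1 ≠ 0) k) c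
      exact this)
    (by rw [mv4, lin_smul]; exact mJ 6 (by decide) _)
  obtain ⟨w, rfl⟩ := Ideal.Quotient.mk_surjective w
  simp only [al, ← map_mul, ← map_add, ← map_pow] at e
  obtain ⟨b, hb⟩ := Ideal.mem_span_range_iff_exists_fun.1 (Ideal.Quotient.eq_zero_iff_mem.1 e)
  rw [mv0, lin_smul, show mv θ 1 = vec θ 9 from rfl] at hb
  set U := ∏ i, θ (5, i) with hU
  have U0 : U ≠ 0 := Finset.prod_ne_zero_iff.2 fun i _ => hu i
  let g : Fin 9 → S := fun k => if k = 0 then C (-(U ^ 17 * c)) * lin (vec θ 9) ^ 21 +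
    (-C U ^ 18 * w) * lin (vec θ 0) else b k
  have g0 : ∑ k, g k * lin (vec θ k) ^ 17 = 0 := by
    rw [Fin.sum_univ_succ] at hb ⊢
    simp only [g, if_true, Fin.succ_ne_zero, if_false, Fin.val_zero, map_neg, map_mul, map_pow]
      at hb ⊢
    linear_combination hb
  have l : ∀ k n, (lin (vec θ k) ^ n).IsHomogeneous n := fun k n => by
    simpa using (lin_hom (vec θ k)).pow n
  refine ⟨fun k => homogeneousComponent 21 (g k), fun k => homogeneousComponent_isHomogeneous _ _,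
    ?_, -(U ^ 17 * c), neg_ne_zero.2 (mul_ne_zero (pow_ne_zero _ U0) hc),
    homogeneousComponent 20 (-C U ^ 18 * w), homogeneousComponent_isHomogeneous _ _, ?_⟩
  · have := congrArg (homogeneousComponent (21 + 17)) g0
    rw [map_sum, map_zero] at this
    rw [← this]
    exact Finset.sum_congr rfl fun k _ => (comp_mul _ (l k 17) 21).symm
  · simp only [g, if_true, map_add]
    rw [comp_mul _ (lin_hom _) 20, homogeneousComponent_eq_self ((l 9 21).C_mul _)]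

theorem main (P : MvPolynomial (Fin 9 × Fin 5) ℂ) (hP : P ≠ 0) :
    ∃ a : Fin 9 → Fin 5 → ℂ, eval (fun p : Fin 9 × Fin 5 => a p.1 p.2) P ≠ 0 ∧
      Module.finrank ℂ ↥((Submodule.restrictScalars ℂ (Ideal.span (Set.range fun k : Fin 9 =>
        lin (a k) ^ 17))) ⊓ H 38) + 2521 ≤ 113850 := by
  choose G hG k using genq
  let F : MvPolynomial (Fin 9 × Fin 5) ℂ := eval₂Hom C (fun p : Fin 9 × Fin 5 => vec X p.1 p.2) P
  have hF : ∀ θ, eval θ F = eval (fun p : Fin 9 × Fin 5 => vec θ p.1 p.2) P := by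
    intro θ
    rw [map_eval₂Hom]
    simp only [vec_map, eval_X]
    rw [coe_eval₂Hom, ← coe_eval₂Hom]
    congr 2
    ext; simp
  let T : MvPolynomial (Fin 9 × Fin 5) ℂ := ∏ p : Fin 5 × Fin 5, X (5, p.1) * X (6, p.1) *
    if p.1 = p.2 then 1 else X (5, p.1) * X (6, p.2) - X (5, p.2) * X (6, p.1)
  have hT : T ≠ 0 := by
    intro h
    have := congrArg (eval fun p : Fin 9 × Fin 5 => if p.1 = 5 then (1 : ℂ) else p.2.val + 1) h
    rw [map_prod, map_zero] at this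
    refine Finset.prod_ne_zero_iff.2 (fun p _ => ?_) this
    split_ifs with e
    · simp [Nat.cast_add_one_ne_zero]
    · simpa [Nat.cast_add_one_ne_zero, sub_eq_zero, Fin.val_inj] using Ne.symm e
  obtain ⟨θ0, h0⟩ := dom P hP
  have F0 : F ≠ 0 := fun h => h0 (by rw [← hF, h, map_zero])
  obtain ⟨θ, hθ⟩ : ∃ θ, eval θ (F * T * ∏ q, G q) ≠ 0 := by
    by_contra h
    push Not at h
    exact mul_ne_zero (mul_ne_zero F0 hT) (Finset.prod_ne_zero_iff.2 fun q _ => hG q)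
      (MvPolynomial.funext fun x => by rw [h, map_zero])
  simp only [map_mul, mul_ne_zero_iff, T, map_prod, Finset.prod_ne_zero_iff, Finset.mem_univ,
    forall_true_left, eval_X, hF] at hθ
  obtain ⟨⟨h1, h2⟩, h3⟩ := hθ
  obtain ⟨g, hg, g0, c, hc, w, hw, e⟩ := extra θ (fun i => (h2 (i, i)).1.1)
    (fun i => (h2 (i, i)).1.2) fun i j h => by
      by_contra n
      have := (h2 (i, j)).2
      simp [n, h] at this
  refine ⟨fun k => vec θ k, h1, count (fun j b hb e => ?_) g hg g0 fun b hb t e' => ?_⟩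
  · have : ∀ j : Fin 9, ∃ q q' : Fin 12, sel q 0 = j ∧ sel q' 4 = j ∧ ∀ i : Fin 9, i ≠ j →
        (∃ s : Fin 5, s ≠ 0 ∧ sel q s = i) ∨ ∃ s : Fin 5, s ≠ 4 ∧ sel q' s = i := by
      decide +kernel
    obtain ⟨q, q', a1, a2, a3⟩ := this j
    obtain ⟨v1, b1, c1⟩ := k q θ (h3 q) 0
    obtain ⟨v2, b2, c2⟩ := k q' θ (h3 q') 4
    refine ind (a := fun k : Fin 9 => vec θ k) (v1 := v1) (v2 := v2) (by rwa [← a1])
      (by rwa [← a2]) (fun i hi => ?_) b hb e
    rcases a3 i hi with ⟨s, hs, r⟩ | ⟨s, hs, r⟩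
    · exact .inl (by rw [← r]; exact c1 s hs)
    · exact .inr (by rw [← r]; exact c2 s hs)
  · obtain ⟨v1, b1, c1⟩ := k 9 θ (h3 9) 0
    obtain ⟨v2, b2, c2⟩ := k 10 θ (h3 10) 0
    obtain ⟨v3, b3, c3⟩ := k 11 θ (h3 11) 0
    have := ind0 (a := fun k : Fin 9 => vec θ k) (y := vec θ 9) b1 b2 b3 (c1 1 (by decide))
      (c2 1 (by decide)) (c3 1 (by decide)) (fun i => ?_) b hb (t * c) (C t * w) (hw.C_mul _)
      (by rw [← e', e, smul_eq_C_mul, map_mul]; simp only [Fin.val_zero]; ring)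
    · exact (mul_eq_zero.1 this).resolve_right hc
    · have : ∀ i : Fin 9, (∃ s : Fin 5, s ≠ 0 ∧ sel 9 s = i) ∨ (∃ s : Fin 5, s ≠ 0 ∧ sel 10 s = i) ∨
          ∃ s : Fin 5, s ≠ 0 ∧ sel 11 s = i := by decide +kernel
      rcases this i with ⟨s, hs, r⟩ | ⟨s, hs, r⟩ | ⟨s, hs, r⟩
      · exact .inl (by rw [← r]; exact c1 s hs)
      · exact .inr (.inl (by rw [← r]; exact c2 s hs))
      · exact .inr (.inr (by rw [← r]; exact c3 s hs))

end Pool.Agent.H.MP_9e2f2c_ag
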